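import Pool.Agent.H15.SJ.Stm
set_option autoImplicit false

open MeasureTheory Set
open scoped ENNReal NNReal

namespace Pool.Agent.H38.SJ

open Pool.Agent.H15.SJ
open Pool.Agent.H518R3.LP (T T_apply T_hull T_inj T_surj hull_eq Wt Con)

/-- upper and lower constraint for the moving vertex `(1, t)`, `A = (h, a)`, `B = (h, a + 1)` -/
def UL (h a t : ℝ) (c : ℝ × ℝ) : Prop :=
  (1 - h) * a + (t - a) * (c.1 - h) ≤ (1 - h) * c.2 ∧
  (1 - h) * c.2 ≤ (1 - h) * (a + 1) + (t - (a + 1)) * (c.1 - h)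

/-- the coordinates with `A = (0,0)`, `B = (0,1)` -/
noncomputable def Ph (h a : ℝ) : ℝ × ℝ → ℝ × ℝ := T (1 - h) 0 0 1 (h, a)

theorem Ph_apply (h a : ℝ) (x : ℝ × ℝ) : Ph h a x = (h + (1 - h) * x.1, a + x.2) := by
  unfold Ph
  rw [T_apply]
  ext
  · show (1 - h) * x.1 + 0 * x.2 + h = _
    ring
  · show 0 * x.1 + 1 * x.2 + a = _
    ring

theorem Ph_surj (h a : ℝ) (h1 : h < 1) : Function.Surjective (Ph h a) := by
  apply T_surj
  have : 0 < 1 - h := by linarith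
  intro hh
  linarith

theorem hullW {S : Set (ℝ × ℝ)} {h a t : ℝ} (h1 : h < 1) (hA : ((h, a) : ℝ × ℝ) ∈ S)
    (hB : ((h, a + 1) : ℝ × ℝ) ∈ S) (hS : ∀ c ∈ S, c.1 ≤ h ∧ UL h a t c) :
    convexHull ℝ (insert ((1, t) : ℝ × ℝ) S) = convexHull ℝ S ∪ Ph h a '' Wt (t - a) := by
  have hd : 0 < 1 - h := by linarith
  set S' : Set (ℝ × ℝ) := Ph h a ⁻¹' S with hS'
  have himg : Ph h a '' S' = S := image_preimage_eq S (Ph_surj h a h1)
  have h00 : ((0, 0) : ℝ × ℝ) ∈ S' := by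
    rw [hS', mem_preimage, Ph_apply]; simpa using hA
  have h01 : ((0, 1) : ℝ × ℝ) ∈ S' := by
    rw [hS', mem_preimage, Ph_apply]; simpa using hB
  have hcon : ∀ c ∈ S', c.1 ≤ 0 ∧ Con (t - a) c := by
    intro c hc
    obtain ⟨g1, g2, g3⟩ := hS _ hc
    rw [Ph_apply] at g1 g2 g3
    simp only at g1 g2 g3
    have e1 : c.1 ≤ 0 := by nlinarith
    refine ⟨e1, ?_, ?_⟩
    · have e2 : (1 - h) * ((t - a) * c.1) ≤ (1 - h) * c.2 := by linarith
      exact le_of_mul_le_mul_left e2 hd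
    · have e2 : (1 - h) * (c.1 + c.2 - (t - a) * c.1) ≤ (1 - h) * 1 := by linarith
      exact le_of_mul_le_mul_left e2 hd
  have key : Ph h a '' convexHull ℝ (insert ((1, t - a) : ℝ × ℝ) S') =
      Ph h a '' (convexHull ℝ S' ∪ Wt (t - a)) := by rw [hull_eq h00 h01 hcon]
  have e3 : ∀ X : Set (ℝ × ℝ), Ph h a '' convexHull ℝ X = convexHull ℝ (Ph h a '' X) := fun X =>
    T_hull _ _ _ _ _ X
  rw [image_union, e3, e3, image_insert_eq, himg] at key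
  have e4 : Ph h a (1, t - a) = (1, t) := by
    rw [Ph_apply]; ext
    · show h + (1 - h) * 1 = 1
      ring
    · show a + (t - a) = t
      ring
  rw [e4] at key
  exact key

theorem neg_hull (S : Set (ℝ × ℝ)) : (fun x => -x) '' convexHull ℝ S = convexHull ℝ ((fun x => -x) '' S) := by
  have h := (-LinearMap.id : (ℝ × ℝ) →ₗ[ℝ] (ℝ × ℝ)).image_convexHull S
  have e : (⇑(-LinearMap.id : (ℝ × ℝ) →ₗ[ℝ] (ℝ × ℝ)) : ℝ × ℝ → ℝ × ℝ) = fun x => -x := by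
    funext x; simp
  rw [e] at h
  exact h

theorem neg_sym {S : Set (ℝ × ℝ)} (hs : ∀ c ∈ S, -c ∈ S) : (fun x => -x) '' S = S := by
  ext x
  constructor
  · rintro ⟨y, hy, rfl⟩; exact hs y hy
  · intro hx; exact ⟨-x, hs x hx, neg_neg x⟩

/-- the hull with the two moving vertices -/
theorem hull_two {S : Set (ℝ × ℝ)} {h a t : ℝ} (h0 : 0 ≤ h) (h1 : h < 1) (hs : ∀ c ∈ S, -c ∈ S)
    (hA : ((h, a) : ℝ × ℝ) ∈ S) (hB : ((h, a + 1) : ℝ × ℝ) ∈ S)
    (hS : ∀ c ∈ S, c.1 ≤ h ∧ UL h a t c) :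
    convexHull ℝ (S ∪ pm {((1, t) : ℝ × ℝ)}) =
      convexHull ℝ S ∪ (Ph h a '' Wt (t - a) ∪ (fun x => -x) '' (Ph h a '' Wt (t - a))) := by
  have e1 := hullW h1 hA hB hS
  -- the opposite vertex alone
  have e2 : convexHull ℝ (insert (-((1, t) : ℝ × ℝ)) S) =
      convexHull ℝ S ∪ (fun x => -x) '' (Ph h a '' Wt (t - a)) := by
    have : (fun x : ℝ × ℝ => -x) '' convexHull ℝ (insert ((1, t) : ℝ × ℝ) S) =
        (fun x : ℝ × ℝ => -x) '' (convexHull ℝ S ∪ Ph h a '' Wt (t - a)) := by rw [e1]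
    rw [image_union, neg_hull, neg_hull, image_insert_eq, neg_sym hs] at this
    exact this
  have e3 : ∀ c ∈ insert (-((1, t) : ℝ × ℝ)) S, c.1 ≤ h ∧ UL h a t c := by
    intro c hc
    rcases hc with rfl | hc
    · have gA := (hS _ (hs _ hA)).2.1
      have gB := (hS _ (hs _ hB)).2.2
      simp only [Prod.fst_neg, Prod.snd_neg] at gA gB
      refine ⟨?_, ?_, ?_⟩
      · show -(1 : ℝ) ≤ h
        linarith
      · show (1 - h) * a + (t - a) * (-1 - h) ≤ (1 - h) * (-t)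
        nlinarith
      · show (1 - h) * (-t) ≤ (1 - h) * (a + 1) + (t - (a + 1)) * (-1 - h)
        nlinarith
    · exact hS c hc
  have e4 := hullW h1 (mem_insert_of_mem _ hA) (mem_insert_of_mem _ hB) e3
  have e5 : S ∪ pm {((1, t) : ℝ × ℝ)} = insert ((1, t) : ℝ × ℝ) (insert (-((1, t) : ℝ × ℝ)) S) := by
    unfold pm
    ext x
    simp only [mem_union, mem_singleton_iff, image_singleton, mem_insert_iff]
    tauto
  rw [e5, e4, e2, union_assoc]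
  congr 1
  exact union_comm _ _

theorem conv_le {S : Set (ℝ × ℝ)} {h : ℝ} (hle : ∀ c ∈ S, c.1 ≤ h) (hs : ∀ c ∈ S, -c ∈ S) :
    ∀ c ∈ convexHull ℝ S, c.1 ≤ h ∧ -h ≤ c.1 := by
  have h1 : Convex ℝ {c : ℝ × ℝ | c.1 ≤ h ∧ -h ≤ c.1} := by
    intro x hx y hy p q hp hq hpq
    obtain ⟨a1, a2⟩ := hx
    obtain ⟨b1, b2⟩ := hy
    have : q = 1 - p := by linarith
    subst this
    refine ⟨?_, ?_⟩
    · show p * x.1 + (1 - p) * y.1 ≤ h
      nlinarith
    · show -h ≤ p * x.1 + (1 - p) * y.1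
      nlinarith
  intro c hc
  refine convexHull_min (s := S) (t := {c : ℝ × ℝ | c.1 ≤ h ∧ -h ≤ c.1}) ?_ h1 hc
  intro x hx
  have := hle _ (hs x hx)
  rw [Prod.fst_neg] at this
  exact ⟨hle x hx, by linarith⟩

theorem sh_id {h s : ℝ} {x : ℝ × ℝ} (h1 : x.1 ≤ h) (h2 : -h ≤ x.1) : sh h s x = x := by
  unfold sh
  rw [max_eq_right (by linarith), max_eq_right (by linarith)]
  ext
  · rfl
  · show x.2 + s * (0 - 0) = x.2
    ring

theorem sh_neg (h s : ℝ) (x : ℝ × ℝ) : sh h s (-x) = -sh h s x := by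
  unfold sh
  ext
  · rfl
  · show -x.2 + s * (max (-x.1 - h) 0 - max (- -x.1 - h) 0) = -(x.2 + s * (max (x.1 - h) 0 - max (-x.1 - h) 0))
    rw [neg_neg]; ring

/-- the cap moves to the cap -/
theorem sh_cap {h a t : ℝ} (h0 : 0 ≤ h) (h1 : h < 1) :
    sh h (t / (1 - h)) '' (Ph h a '' Wt (0 - a)) = Ph h a '' Wt (t - a) := by
  have hd : 0 < 1 - h := by linarith
  have key : ∀ x : ℝ × ℝ, 0 ≤ x.1 → sh h (t / (1 - h)) (Ph h a x) = Ph h a (x.1, x.2 + t * x.1) := by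
    intro x hx
    rw [Ph_apply, Ph_apply]
    unfold sh
    simp only
    have e1 : 0 ≤ (1 - h) * x.1 := mul_nonneg hd.le hx
    rw [max_eq_left (by linarith), max_eq_right (by linarith)]
    ext
    · rfl
    · show a + x.2 + t / (1 - h) * (h + (1 - h) * x.1 - h - 0) = a + (x.2 + t * x.1)
      field_simp
      ring
  ext y
  constructor
  · rintro ⟨_, ⟨x, ⟨g1, g2, g3⟩, rfl⟩, rfl⟩
    rw [key x g1]
    refine ⟨(x.1, x.2 + t * x.1), ⟨g1, ?_, ?_⟩, rfl⟩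
    · show (t - a) * x.1 ≤ x.2 + t * x.1
      linarith
    · show x.2 + t * x.1 ≤ (t - a) * x.1 + 1 - x.1
      linarith
  · rintro ⟨x, ⟨g1, g2, g3⟩, rfl⟩
    refine ⟨Ph h a (x.1, x.2 - t * x.1), ⟨(x.1, x.2 - t * x.1), ⟨g1, ?_, ?_⟩, rfl⟩, ?_⟩
    · show (0 - a) * x.1 ≤ x.2 - t * x.1
      linarith
    · show x.2 - t * x.1 ≤ (0 - a) * x.1 + 1 - x.1
      linarith
    · rw [key (x.1, x.2 - t * x.1) g1]
      congr 1
      ext
      · rfl
      · show x.2 - t * x.1 + t * x.1 = x.2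
        ring

/-- the symmetric movement of the two opposite vertices is the movement `sh` -/
theorem hull_sym {S : Set (ℝ × ℝ)} {h a t : ℝ} (h0 : 0 ≤ h) (h1 : h < 1) (hs : ∀ c ∈ S, -c ∈ S)
    (hA : ((h, a) : ℝ × ℝ) ∈ S) (hB : ((h, a + 1) : ℝ × ℝ) ∈ S)
    (hS : ∀ c ∈ S, c.1 ≤ h ∧ UL h a t c) (hS0 : ∀ c ∈ S, UL h a 0 c) :
    convexHull ℝ (S ∪ pm {((1, t) : ℝ × ℝ)}) =
      sh h (t / (1 - h)) '' convexHull ℝ (S ∪ pm {((1, 0) : ℝ × ℝ)}) := by
  rw [hull_two h0 h1 hs hA hB hS, hull_two h0 h1 hs hA hB (fun c hc => ⟨(hS c hc).1, hS0 c hc⟩),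
    image_union, image_union, sh_cap h0 h1]
  congr 1
  · ext x
    constructor
    · intro hx
      obtain ⟨a1, a2⟩ := conv_le (fun c hc => (hS c hc).1) hs x hx
      exact ⟨x, hx, sh_id a1 a2⟩
    · rintro ⟨z, hz, rfl⟩
      obtain ⟨a1, a2⟩ := conv_le (fun c hc => (hS c hc).1) hs z hz
      rw [sh_id a1 a2]
      exact hz
  · congr 1
    have e1 : sh h (t / (1 - h)) '' ((fun x => -x) '' (Ph h a '' Wt (0 - a))) =
        (fun x => -x) '' (sh h (t / (1 - h)) '' (Ph h a '' Wt (0 - a))) := by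
      rw [image_image, image_image (fun x => -x)]
      apply image_congr
      intro x _
      exact sh_neg _ _ _
    rw [e1, sh_cap h0 h1]

end Pool.Agent.H38.SJ
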